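import Mathlib
import Pool.Agent.Lib.MP_6bc78b_nt.MS.P2.Iface
import Pool.Agent.Lib.MP_6bc78b_nt.LS.Out

/-! Project MS, Part II, module RED: reduction to character sums. -/

set_option autoImplicit false

open Filter Topology ArithmeticFunction

namespace Pool.Agent.Lib.MP_6bc78b_nt.MS.P2.H67

open Pool.Agent.Lib.MP_6bc78b_nt.MS Pool.Agent.Lib.MP_6bc78b_nt.MS.P2
open Pool.Agent.Lib.MP_6bc78b_nt.LS (primSum primSum_nonneg primSum_mono primSum_add
  primSum_const_mul nonprincipal_le abs_ramC_le')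

lemma primSum_finset_sum {ι : Type*} (q : ℕ) (s : Finset ι)
    (F : ι → DirichletCharacter ℂ q → ℝ) :
    primSum q (fun χ => ∑ i ∈ s, F i χ) = ∑ i ∈ s, primSum q (F i) := by
  classical
  unfold primSum
  rw [Finset.sum_comm]
  refine Finset.sum_congr rfl (fun χ _ => ?_)
  split_ifs <;> simp

/-- The finite part, for one squarefree modulus. -/
lemma fin_le (m : ℕ) (hm : Squarefree m) (N : ℕ) (a : ℕ → ℂ) :
    ‖∑ n ∈ Finset.Icc 1 N, a n * (ee (-((n : ℝ) / m)) - ((ramC m n : ℝ) : ℂ) / (m.totient : ℂ))‖ ≤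
      ∑ q ∈ m.divisors.erase 1, Real.sqrt q / ((q.totient : ℝ) * ((m / q).totient : ℝ)) *
        ∑ d ∈ (m / q).divisors, (d : ℝ) *
          primSum q (fun ψ => ‖∑ n ∈ (Finset.Icc 1 N).filter (fun n => d ∣ n),
            a n * ψ (n : ZMod q)‖) := by
  classical
  have hm0 : 0 < m := Nat.pos_of_ne_zero hm.ne_zero
  set w : ℕ → ℂ := fun n => if n ∈ Finset.Icc 1 N then a n else 0 with hw
  have hw0 : ∀ n, n ∉ Finset.Icc 1 N → w n = 0 := by
    intro n hn
    simp only [hw, if_neg hn]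
  have hw1 : ∀ n, n ∈ Finset.Icc 1 N → w n = a n := by
    intro n hn
    simp only [hw, if_pos hn]
  have hsum : Summable (fun n => ‖w n‖) := by
    apply summable_of_ne_finset_zero (s := Finset.Icc 1 N)
    intro n hn
    rw [hw0 n hn, norm_zero]
  have h1 := nonprincipal_le m hm w hsum
  have h2 : ∑' n : ℕ, w n * (ee (-((n : ℝ) / m)) - ((ramC m n : ℝ) : ℂ) / (m.totient : ℂ)) =
      ∑ n ∈ Finset.Icc 1 N, a n * (ee (-((n : ℝ) / m)) - ((ramC m n : ℝ) : ℂ) / (m.totient : ℂ)) := by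
    rw [tsum_eq_sum (s := Finset.Icc 1 N)]
    · refine Finset.sum_congr rfl (fun n hn => ?_)
      rw [hw1 n hn]
    · intro n hn
      rw [hw0 n hn, zero_mul]
  rw [h2] at h1
  refine le_trans h1 (Finset.sum_le_sum (fun q hq => ?_))
  have hq' := Nat.mem_divisors.1 (Finset.mem_of_mem_erase hq)
  have hq0 : 0 < q := Nat.pos_of_dvd_of_pos hq'.1 hm0
  have hmq : 0 < m / q := Nat.div_pos (Nat.le_of_dvd hm0 hq'.1) hq0
  refine mul_le_mul_of_nonneg_left ?_ (by positivity)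
  have h3 : ∑ d ∈ (m / q).divisors, (d : ℝ) *
      primSum q (fun ψ => ‖∑ n ∈ (Finset.Icc 1 N).filter (fun n => d ∣ n),
            a n * ψ (n : ZMod q)‖) = primSum q (fun ψ => ∑ d ∈ (m / q).divisors, (d : ℝ) *
        ‖∑ n ∈ (Finset.Icc 1 N).filter (fun n => d ∣ n), a n * ψ (n : ZMod q)‖) := by
    rw [primSum_finset_sum]
    refine Finset.sum_congr rfl (fun d _ => ?_)
    rw [primSum_const_mul]
  rw [h3]
  apply primSum_mono
  intro ψ _
  have h4 : ∑' n : ℕ, w n * ((ramC (m / q) n : ℝ) : ℂ) * ψ (n : ZMod q) =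
      ∑ d ∈ (m / q).divisors, ((d : ℂ) * (((ArithmeticFunction.moebius (m / q / d) : ℤ) : ℝ) : ℂ)) *
        ∑ n ∈ (Finset.Icc 1 N).filter (fun n => d ∣ n), a n * ψ (n : ZMod q) := by
    rw [tsum_eq_sum (s := Finset.Icc 1 N) (fun n hn => by rw [hw0 n hn, zero_mul, zero_mul])]
    simp_rw [Finset.mul_sum, Finset.sum_filter]
    rw [Finset.sum_comm]
    refine Finset.sum_congr rfl (fun n hn => ?_)
    rw [hw1 n hn]
    unfold ramC
    rw [← Pool.Agent.Lib.MP_6bc78b_nt.LS.divisors_filter (m / q) n hmq, Finset.sum_filter]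
    push_cast
    rw [Finset.mul_sum, Finset.sum_mul]
    refine Finset.sum_congr rfl (fun d _ => ?_)
    split_ifs with h
    · push_cast
      ring
    · simp
  rw [h4]
  refine le_trans (norm_sum_le _ _) (Finset.sum_le_sum (fun d _ => ?_))
  rw [norm_mul, norm_mul, Complex.norm_natCast, Complex.norm_real, Real.norm_eq_abs]
  have h5 : |((ArithmeticFunction.moebius (m / q / d) : ℤ) : ℝ)| ≤ 1 := by
    exact_mod_cast ArithmeticFunction.abs_moebius_le_one
  calc (d : ℝ) * |((ArithmeticFunction.moebius (m / q / d) : ℤ) : ℝ)| *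
        ‖∑ n ∈ (Finset.Icc 1 N).filter (fun n => d ∣ n), a n * ψ (n : ZMod q)‖ ≤ (d : ℝ) * 1 *
        ‖∑ n ∈ (Finset.Icc 1 N).filter (fun n => d ∣ n), a n * ψ (n : ZMod q)‖ := by gcongr
    _ = _ := by rw [mul_one]

/-- Rearrangement of the sum over the moduli. -/
lemma rearr (M : ℕ) (P : ℕ → ℕ → Prop) [∀ s, DecidablePred (P s)]
    (hP : ∀ q s, q * s ≤ M → P s q) (F : ℕ → ℕ → ℕ → ℝ) (hF : ∀ q s d, 0 ≤ F q s d) :
    ∑ m ∈ (Finset.Icc 1 M).filter Squarefree, (1 / (m : ℝ)) *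
      ∑ q ∈ m.divisors.erase 1, Real.sqrt q / ((q.totient : ℝ) * ((m / q).totient : ℝ)) *
        ∑ d ∈ (m / q).divisors, (d : ℝ) * F q (m / q) d ≤
    ∑ s ∈ (Finset.Icc 1 M).filter Squarefree, 1 / ((s : ℝ) * (s.totient : ℝ)) *
      ∑ d ∈ s.divisors, (d : ℝ) *
        ∑ q ∈ (Finset.Ioc 1 M).filter (P s), 1 / (Real.sqrt q * (q.totient : ℝ)) * F q s d := by
  classical
  set t : ℕ → ℕ → ℝ := fun s q => 1 / ((s : ℝ) * (s.totient : ℝ)) *
      ∑ d ∈ s.divisors, (d : ℝ) * (1 / (Real.sqrt q * (q.totient : ℝ)) * F q s d) with ht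
  have ht0 : ∀ s q, 0 ≤ t s q := by
    intro s q
    simp only [ht]
    apply mul_nonneg (by positivity)
    apply Finset.sum_nonneg
    intro d _
    have := hF q s d
    positivity
  have hR : ∑ s ∈ (Finset.Icc 1 M).filter Squarefree, 1 / ((s : ℝ) * (s.totient : ℝ)) *
      ∑ d ∈ s.divisors, (d : ℝ) *
        ∑ q ∈ (Finset.Ioc 1 M).filter (P s), 1 / (Real.sqrt q * (q.totient : ℝ)) * F q s d =
      ∑ s ∈ (Finset.Icc 1 M).filter Squarefree, ∑ q ∈ (Finset.Ioc 1 M).filter (P s), t s q := by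
    refine Finset.sum_congr rfl (fun s _ => ?_)
    simp only [ht]
    rw [← Finset.mul_sum]
    congr 1
    rw [Finset.sum_comm]
    refine Finset.sum_congr rfl (fun d _ => ?_)
    rw [Finset.mul_sum]
  have hL : ∑ m ∈ (Finset.Icc 1 M).filter Squarefree, (1 / (m : ℝ)) *
      ∑ q ∈ m.divisors.erase 1, Real.sqrt q / ((q.totient : ℝ) * ((m / q).totient : ℝ)) *
        ∑ d ∈ (m / q).divisors, (d : ℝ) * F q (m / q) d =
      ∑ m ∈ (Finset.Icc 1 M).filter Squarefree, ∑ q ∈ m.divisors.erase 1, t (m / q) q := by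
    refine Finset.sum_congr rfl (fun m hm => ?_)
    rw [Finset.mul_sum]
    refine Finset.sum_congr rfl (fun q hq => ?_)
    have hm1 := Finset.mem_Icc.1 (Finset.mem_filter.1 hm).1
    have hq' := Nat.mem_divisors.1 (Finset.mem_of_mem_erase hq)
    have hq0 : 0 < q := Nat.pos_of_dvd_of_pos hq'.1 (by omega)
    have hmq : 0 < m / q := Nat.div_pos (Nat.le_of_dvd (by omega) hq'.1) hq0
    simp only [ht]
    have hmm : (m : ℝ) = (q : ℝ) * ((m / q : ℕ) : ℝ) := by
      rw [← Nat.cast_mul, Nat.mul_div_cancel' hq'.1]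
    have hqr : (0 : ℝ) < q := by exact_mod_cast hq0
    have hsq : Real.sqrt q * Real.sqrt q = q := Real.mul_self_sqrt hqr.le
    have hsq0 : 0 < Real.sqrt q := Real.sqrt_pos.2 hqr
    have hs0 : (0 : ℝ) < ((m / q : ℕ) : ℝ) := by exact_mod_cast hmq
    have hφq : (0 : ℝ) < q.totient := by exact_mod_cast Nat.totient_pos.2 hq0
    have hφs : (0 : ℝ) < (m / q).totient := by exact_mod_cast Nat.totient_pos.2 hmq
    rw [← mul_assoc]
    have hc : 1 / (m : ℝ) * (Real.sqrt q / ((q.totient : ℝ) * ((m / q).totient : ℝ))) =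
        1 / (((m / q : ℕ) : ℝ) * ((m / q).totient : ℝ)) * (1 / (Real.sqrt q * (q.totient : ℝ))) := by
      rw [hmm]
      field_simp
      rw [pow_two, hsq]
    rw [hc, mul_assoc]
    congr 1
    rw [Finset.mul_sum]
    refine Finset.sum_congr rfl (fun d _ => ?_)
    ring
  rw [hR, hL, Finset.sum_sigma', Finset.sum_sigma']
  set A := ((Finset.Icc 1 M).filter Squarefree).sigma (fun m => m.divisors.erase 1) with hA
  set B := ((Finset.Icc 1 M).filter Squarefree).sigma (fun s => (Finset.Ioc 1 M).filter (P s)) with hB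
  set φ : (Σ _ : ℕ, ℕ) → (Σ _ : ℕ, ℕ) := fun x => ⟨x.1 / x.2, x.2⟩ with hφ
  have hmem : ∀ x ∈ A, 1 ≤ x.1 ∧ x.1 ≤ M ∧ Squarefree x.1 ∧ x.2 ∣ x.1 ∧ x.2 ≠ 1 := by
    intro x hx
    rw [hA, Finset.mem_sigma, Finset.mem_filter, Finset.mem_Icc, Finset.mem_erase,
      Nat.mem_divisors] at hx
    exact ⟨hx.1.1.1, hx.1.1.2, hx.1.2, hx.2.2.1, hx.2.1⟩
  have hinj : Set.InjOn φ (A : Set (Σ _ : ℕ, ℕ)) := by
    intro x hx y hy hxy
    obtain ⟨x1, x2⟩ := x
    obtain ⟨y1, y2⟩ := y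
    have hx' := hmem _ (Finset.mem_coe.1 hx)
    have hy' := hmem _ (Finset.mem_coe.1 hy)
    simp only [hφ, Sigma.mk.injEq, heq_eq_eq] at hxy
    simp only at hx' hy'
    obtain ⟨h1, h2⟩ := hxy
    subst h2
    have h3 : x1 = y1 := by
      rw [← Nat.mul_div_cancel' hx'.2.2.2.1, ← Nat.mul_div_cancel' hy'.2.2.2.1, h1]
    rw [h3]
  have himg : A.image φ ⊆ B := by
    intro z hz
    obtain ⟨x, hx, rfl⟩ := Finset.mem_image.1 hz
    obtain ⟨h1, h2, h3, h4, h5⟩ := hmem x hx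
    have hq0 : 0 < x.2 := Nat.pos_of_dvd_of_pos h4 (by omega)
    have hle : x.2 ≤ x.1 := Nat.le_of_dvd (by omega) h4
    have hmq : 0 < x.1 / x.2 := Nat.div_pos hle hq0
    rw [hB, Finset.mem_sigma, Finset.mem_filter, Finset.mem_Icc, Finset.mem_filter, Finset.mem_Ioc]
    refine ⟨⟨⟨hmq, le_trans (Nat.div_le_self _ _) h2⟩,
      h3.squarefree_of_dvd (Nat.div_dvd_of_dvd h4)⟩, ⟨(by omega : 1 < x.2), (by omega : x.2 ≤ M)⟩, ?_⟩
    apply hP
    simp only [hφ]
    rw [Nat.mul_div_cancel' h4]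
    exact h2
  have hsum : ∑ x ∈ A, t (x.1 / x.2) x.2 = ∑ z ∈ A.image φ, t z.1 z.2 := by
    rw [Finset.sum_image (fun x hx y hy h => hinj hx hy h)]
  rw [hsum]
  exact Finset.sum_le_sum_of_subset_of_nonneg himg (fun z _ _ => ht0 _ _)

lemma sum_div_le (m : ℕ) : ∑ d ∈ m.divisors, (d : ℝ) ≤ (m : ℝ) ^ 2 := by
  have h1 : ∀ d ∈ m.divisors, (d : ℝ) ≤ m := fun d hd => by
    exact_mod_cast Nat.divisor_le hd
  have h2 := Finset.sum_le_sum h1
  rw [Finset.sum_const, nsmul_eq_mul] at h2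
  have h3 : (m.divisors.card : ℝ) ≤ m := by exact_mod_cast Nat.card_divisors_le_self m
  have h4 : (0 : ℝ) ≤ m := by positivity
  nlinarith

lemma norm_ee (x : ℝ) : ‖ee x‖ = 1 := by
  rw [Pool.Agent.Lib.MP_6bc78b_nt.LS.ee_eq_ex]
  exact Pool.Agent.Lib.MP_6bc78b_nt.LS.norm_ex x

lemma kernel_le (m n : ℕ) (hm : 1 ≤ m) :
    ‖ee (-((n : ℝ) / m)) - ((ramC m n : ℝ) : ℂ) / (m.totient : ℂ)‖ ≤ 1 + (m : ℝ) ^ 2 := by
  refine le_trans (norm_sub_le _ _) ?_
  rw [norm_ee, norm_div, Complex.norm_real, Complex.norm_natCast, Real.norm_eq_abs]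
  have hφ : (1 : ℝ) ≤ m.totient := by exact_mod_cast Nat.totient_pos.2 hm
  have h1 := le_trans (abs_ramC_le' m n hm) (sum_div_le m)
  have h2 : |ramC m n| / m.totient ≤ |ramC m n| := div_le_self (abs_nonneg _) hφ
  linarith

lemma betf_le (th c1 c2 T : ℝ) (hth : 0 < th) (hT : 1 < T) (m : ℕ) (hm : 1 ≤ m) :
    |betf th c1 c2 T m| ≤ |c1| + |c2| := by
  unfold betf
  have hc : 0 ≤ |c1| + |c2| := by positivity
  split_ifs with h
  · have hL : 0 < Real.log T := Real.log_pos hT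
    have hm' : (1 : ℝ) ≤ m := by exact_mod_cast hm
    have h1 : 0 ≤ Real.log m := Real.log_nonneg hm'
    have h2 : Real.log m ≤ th * Real.log T := by
      rw [← Real.log_rpow (by linarith)]
      exact Real.log_le_log (by linarith) h
    have hd : 0 < th * Real.log T := by positivity
    set x := 1 - Real.log m / (th * Real.log T) with hx
    have hx1 : x ≤ 1 := by
      rw [hx]
      have : 0 ≤ Real.log m / (th * Real.log T) := by positivity
      linarith
    have hx0 : 0 ≤ x := by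
      rw [hx]
      have : Real.log m / (th * Real.log T) ≤ 1 := (div_le_one hd).2 h2
      linarith
    have hmu : |((ArithmeticFunction.moebius m : ℤ) : ℝ)| ≤ 1 := by
      exact_mod_cast ArithmeticFunction.abs_moebius_le_one
    rw [abs_mul]
    have hP : |PP c1 c2 x| ≤ |c1| + |c2| := by
      unfold PP
      refine le_trans (abs_add_le _ _) ?_
      rw [abs_mul, abs_mul, abs_of_nonneg hx0, abs_of_nonneg (by positivity : (0:ℝ) ≤ x ^ 2)]
      have hx2 : x ^ 2 ≤ 1 := by nlinarith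
      have := abs_nonneg c1
      have := abs_nonneg c2
      nlinarith
    calc |((ArithmeticFunction.moebius m : ℤ) : ℝ)| * |PP c1 c2 x| ≤ 1 * (|c1| + |c2|) := by
          gcongr
      _ = _ := one_mul _
  · simpa using hc

lemma betf_zero (th c1 c2 T : ℝ) (m : ℕ) (hm : ¬ Squarefree m) : betf th c1 c2 T m = 0 := by
  unfold betf
  rw [ArithmeticFunction.moebius_eq_zero_of_not_squarefree hm]
  simp

lemma K_summable : Summable (fun i : ℕ => 1 / ((i : ℝ) + 1) ^ 2) := by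
  have h := (summable_nat_add_iff 1).2 (Real.summable_one_div_nat_pow.2 (by norm_num : 1 < 2))
  refine h.congr (fun i => ?_)
  push_cast
  rfl

/-- One modulus: the difference of the two sums, with an error from n > T^2. -/
lemma one_mod (T C : ℝ) (hT : 16 ≤ T) (hC : 0 ≤ C) (m : ℕ) (hm : 1 ≤ m) (hmT : (m : ℝ) ^ 2 ≤ T)
    (hsq : Squarefree m) (j : ℕ) (a : ArithmeticFunction ℝ) (ha : ∀ n : ℕ, |a n| ≤ C * (n : ℝ) ^ 10)
    (hW : ∀ r : ℝ, T / 2 ≤ r → |wt j T r| ≤ 1 / r ^ 20) :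
    ‖(∑' n : ℕ, ((a n * Real.log ((n : ℝ) / m) ^ j * GG T ((n : ℝ) / m) : ℝ) : ℂ) *
        ee (-((n : ℝ) / m))) - ((∑' n : ℕ, a n * ramC m n * Real.log ((n : ℝ) / m) ^ j *
          GG T ((n : ℝ) / m) : ℝ) : ℂ) / (m.totient : ℂ)‖ ≤
      (∑ q ∈ m.divisors.erase 1, Real.sqrt q / ((q.totient : ℝ) * ((m / q).totient : ℝ)) *
        ∑ d ∈ (m / q).divisors, (d : ℝ) *
          primSum q (fun ψ => ‖VV j T a (q * (m / q)) d ψ‖)) +
      2 * C / T * ∑' i : ℕ, 1 / ((i : ℝ) + 1) ^ 2 := by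
  classical
  set w : ℕ → ℝ := fun n => a n * wt j T ((n : ℝ) / m) with hw
  set f : ℕ → ℂ := fun n => (w n : ℂ) *
    (ee (-((n : ℝ) / m)) - ((ramC m n : ℝ) : ℂ) / (m.totient : ℂ)) with hf
  set N : ℕ := ⌊T ^ 2⌋₊ with hN
  have hm' : (1 : ℝ) ≤ m := by exact_mod_cast hm
  have hm0 : (0 : ℝ) < m := by linarith
  have hT0 : 0 < T := by linarith
  have htail : ∀ n : ℕ, T ^ 2 < n → |w n| ≤ C / (n : ℝ) ^ 5 := by
    intro n hn
    have hn0 : (0 : ℝ) < n := lt_trans (by positivity) hn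
    have hr : T / 2 ≤ (n : ℝ) / m := by
      rw [le_div_iff₀ hm0]
      nlinarith
    have h1 := hW _ hr
    have h4 : (m : ℝ) ^ 4 ≤ n := by
      have : (m : ℝ) ^ 4 ≤ T ^ 2 := by
        calc (m : ℝ) ^ 4 = ((m : ℝ) ^ 2) ^ 2 := by ring
          _ ≤ T ^ 2 := by gcongr
      linarith
    have h5 : (m : ℝ) ^ 20 ≤ (n : ℝ) ^ 5 := by
      calc (m : ℝ) ^ 20 = ((m : ℝ) ^ 4) ^ 5 := by ring
        _ ≤ (n : ℝ) ^ 5 := by gcongr
    simp only [hw]
    rw [abs_mul]
    have h6 : 1 / ((n : ℝ) / m) ^ 20 ≤ (n : ℝ) ^ 5 / (n : ℝ) ^ 20 := by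
      rw [div_pow, one_div_div]
      gcongr
    calc |a n| * |wt j T ((n : ℝ) / m)| ≤ (C * (n : ℝ) ^ 10) * ((n : ℝ) ^ 5 / (n : ℝ) ^ 20) := by
          gcongr
          · exact ha n
          · exact le_trans h1 h6
      _ = C / (n : ℝ) ^ 5 := by
          field_simp
  have hlarge : ∀ i : ℕ, T ^ 2 < ((i + (N + 1) : ℕ) : ℝ) := by
    intro i
    have h1 := Nat.lt_floor_add_one (T ^ 2)
    have h2 : (0 : ℝ) ≤ i := by positivity
    push_cast
    rw [← hN] at h1
    linarith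
  have hK := K_summable
  have hsw : Summable (fun n => |w n|) := by
    rw [← summable_nat_add_iff (N + 1)]
    refine Summable.of_nonneg_of_le (fun i => abs_nonneg _) (fun i => ?_) (hK.mul_left C)
    refine le_trans (htail _ (hlarge i)) ?_
    have h1 : ((i : ℝ) + 1) ≤ ((i + (N + 1) : ℕ) : ℝ) := by push_cast; linarith [(Nat.cast_nonneg N : (0:ℝ) ≤ N)]
    have h0 : (0 : ℝ) < (i : ℝ) + 1 := by positivity
    have h2 : ((i : ℝ) + 1) ^ 2 ≤ (((i + (N + 1) : ℕ) : ℝ)) ^ 5 := by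
      have h3 : (1 : ℝ) ≤ ((i + (N + 1) : ℕ) : ℝ) := le_trans (by linarith [(Nat.cast_nonneg i : (0:ℝ) ≤ i)]) h1
      calc ((i : ℝ) + 1) ^ 2 ≤ (((i + (N + 1) : ℕ) : ℝ)) ^ 2 := by gcongr
        _ ≤ (((i + (N + 1) : ℕ) : ℝ)) ^ 5 := pow_le_pow_right₀ h3 (by norm_num)
    rw [mul_one_div]
    gcongr
  have hsee : Summable (fun n : ℕ => (w n : ℂ) * ee (-((n : ℝ) / m))) := by
    apply Summable.of_norm
    refine hsw.congr (fun n => ?_)
    rw [norm_mul, norm_ee, mul_one, Complex.norm_real, Real.norm_eq_abs]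
  have hsram : Summable (fun n : ℕ => w n * ramC m n) := by
    apply Summable.of_norm
    refine Summable.of_nonneg_of_le (fun n => norm_nonneg _) (fun n => ?_) (hsw.mul_right ((m : ℝ) ^ 2))
    rw [norm_mul, Real.norm_eq_abs, Real.norm_eq_abs]
    have := le_trans (abs_ramC_le' m n hm) (sum_div_le m)
    gcongr
  have hsramC : Summable (fun n : ℕ => (w n : ℂ) * (((ramC m n : ℝ) : ℂ) / (m.totient : ℂ))) := by
    have h1 : Summable (fun n : ℕ => ((w n * ramC m n : ℝ) : ℂ)) := Complex.ofRealCLM.summable hsram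
    refine (h1.div_const (m.totient : ℂ)).congr (fun n => ?_)
    push_cast
    ring
  have hfs : Summable f := by
    refine (hsee.sub hsramC).congr (fun n => ?_)
    simp only [hf]
    ring
  have hdiff : (∑' n : ℕ, ((a n * Real.log ((n : ℝ) / m) ^ j * GG T ((n : ℝ) / m) : ℝ) : ℂ) *
        ee (-((n : ℝ) / m))) - ((∑' n : ℕ, a n * ramC m n * Real.log ((n : ℝ) / m) ^ j *
          GG T ((n : ℝ) / m) : ℝ) : ℂ) / (m.totient : ℂ) = ∑' n, f n := by
    have h1 : ∀ n : ℕ, ((a n * Real.log ((n : ℝ) / m) ^ j * GG T ((n : ℝ) / m) : ℝ) : ℂ) *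
        ee (-((n : ℝ) / m)) = (w n : ℂ) * ee (-((n : ℝ) / m)) := by
      intro n
      simp only [hw, wt]
      rw [mul_assoc (a n)]
    have h2 : ∀ n : ℕ, a n * ramC m n * Real.log ((n : ℝ) / m) ^ j * GG T ((n : ℝ) / m) =
        w n * ramC m n := by
      intro n
      simp only [hw, wt]
      ring
    have h3 : ((∑' n : ℕ, w n * ramC m n : ℝ) : ℂ) / (m.totient : ℂ) =
        ∑' n : ℕ, (w n : ℂ) * (((ramC m n : ℝ) : ℂ) / (m.totient : ℂ)) := by
      rw [Complex.ofReal_tsum, ← tsum_div_const]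
      refine tsum_congr (fun n => ?_)
      push_cast
      ring
    simp_rw [h1, h2]
    rw [h3, ← hsee.tsum_sub hsramC]
    refine tsum_congr (fun n => ?_)
    simp only [hf]
    ring
  rw [hdiff, ← hfs.sum_add_tsum_nat_add (N + 1)]
  refine le_trans (norm_add_le _ _) (add_le_add ?_ ?_)
  · have h0 : f 0 = 0 := by
      simp only [hf, hw, ArithmeticFunction.map_zero, zero_mul, Complex.ofReal_zero]
    have h1 : ∑ n ∈ Finset.range (N + 1), f n = ∑ n ∈ Finset.Icc 1 N, f n := by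
      rw [Pool.Agent.Lib.MP_6bc78b_nt.LS.sum_Icc_range]
      refine Finset.sum_congr rfl (fun n _ => ?_)
      split_ifs with h
      · rw [h, h0]
      · rfl
    rw [h1]
    refine le_trans (fin_le m hsq N (fun n => (w n : ℂ))) ?_
    apply le_of_eq
    refine Finset.sum_congr rfl (fun q hq => ?_)
    have hq' := Nat.mem_divisors.1 (Finset.mem_of_mem_erase hq)
    congr 1
    refine Finset.sum_congr rfl (fun d _ => ?_)
    congr 1
    rw [Nat.mul_div_cancel' hq'.1]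
    rfl
  · have h1 : ∀ i : ℕ, ‖f (i + (N + 1))‖ ≤ 2 * C / T * (1 / ((i : ℝ) + 1) ^ 2) := by
      intro i
      set n : ℕ := i + (N + 1) with hn
      have hn1 : T ^ 2 < (n : ℝ) := hlarge i
      have hn2 : ((i : ℝ) + 1) ≤ (n : ℝ) := by rw [hn]; push_cast; linarith [(Nat.cast_nonneg N : (0:ℝ) ≤ N)]
      have hn0 : (0 : ℝ) < n := lt_trans (by positivity) hn1
      have hk := kernel_le m n hm
      have hw1 := htail n hn1
      have h2 : ‖f n‖ ≤ C / (n : ℝ) ^ 5 * (2 * T) := by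
        simp only [hf]
        rw [norm_mul, Complex.norm_real, Real.norm_eq_abs]
        have h3 : 1 + (m : ℝ) ^ 2 ≤ 2 * T := by linarith
        gcongr
        exact le_trans hk h3
      refine le_trans h2 ?_
      have hTn : T ≤ n := by nlinarith
      have h5 : C / (n : ℝ) ^ 5 * (2 * T) ≤ 2 * C / (n : ℝ) ^ 4 := by
        rw [div_mul_eq_mul_div, div_le_div_iff₀ (by positivity) (by positivity)]
        have : C * (2 * T) * (n : ℝ) ^ 4 ≤ C * (2 * n) * (n : ℝ) ^ 4 := by gcongr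
        calc C * (2 * T) * (n : ℝ) ^ 4 ≤ C * (2 * n) * (n : ℝ) ^ 4 := this
          _ = 2 * C * (n : ℝ) ^ 5 := by ring
      refine le_trans h5 ?_
      have h6 : T * ((i : ℝ) + 1) ^ 2 ≤ (n : ℝ) ^ 4 := by
        have h7 : T ≤ (n : ℝ) ^ 2 := by nlinarith
        calc T * ((i : ℝ) + 1) ^ 2 ≤ (n : ℝ) ^ 2 * (n : ℝ) ^ 2 := by gcongr
          _ = (n : ℝ) ^ 4 := by ring
      rw [div_mul_div_comm, mul_one]
      gcongr
    refine le_trans (norm_tsum_le_tsum_norm ?_) ?_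
    · exact Summable.of_nonneg_of_le (fun i => norm_nonneg _) h1 (hK.mul_left _)
    · rw [← tsum_mul_left]
      exact Summable.tsum_le_tsum h1 (Summable.of_nonneg_of_le (fun i => norm_nonneg _) h1 (hK.mul_left _)) (hK.mul_left _)

/-- RED. -/
theorem red (h1 : WttStatement) (h2 : PolStatement) : RedStatement := by
  classical
  intro th lam c1 c2 hth hth2 hlam hlam1 α hα j
  obtain ⟨C0, hC0⟩ := h2 th lam c1 c2 hth hlam α hα
  set C : ℝ := max C0 0 with hC
  have hC' : 0 ≤ C := le_max_right _ _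
  set K : ℝ := ∑' i : ℕ, 1 / ((i : ℝ) + 1) ^ 2 with hK
  have hK0 : 0 ≤ K := tsum_nonneg (fun i => by positivity)
  set B : ℝ := |c1| + |c2| with hB
  have hB0 : 0 ≤ B := by positivity
  refine ⟨B * (1 + 2 * C * K), ?_⟩
  filter_upwards [h1 j 20, eventually_ge_atTop (16 : ℝ)] with T hW hT
  have hT0 : 0 < T := by linarith
  have hT1 : 1 < T := by linarith
  set M : ℕ := ⌊T ^ th⌋₊ with hM
  have hMT : (M : ℝ) ≤ T ^ th := Nat.floor_le (by positivity)
  have hth3 : T ^ th ≤ T ^ (1 / 2 : ℝ) := Real.rpow_le_rpow_of_exponent_le hT1.le hth2.le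
  have hsqT : (T ^ (1 / 2 : ℝ)) ^ 2 = T := by
    rw [← Real.rpow_natCast, ← Real.rpow_mul hT0.le]
    norm_num
  have hMm : ∀ m ∈ Finset.Icc 1 M, 1 ≤ m ∧ (m : ℝ) ^ 2 ≤ T := by
    intro m hm
    rw [Finset.mem_Icc] at hm
    refine ⟨hm.1, ?_⟩
    have h3 : (m : ℝ) ≤ T ^ (1 / 2 : ℝ) := by
      have : (m : ℝ) ≤ M := by exact_mod_cast hm.2
      linarith
    calc (m : ℝ) ^ 2 ≤ (T ^ (1 / 2 : ℝ)) ^ 2 := by gcongr
      _ = T := hsqT
  have ha : ∀ n : ℕ, |α T n| ≤ C * (n : ℝ) ^ 10 := by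
    intro n
    refine le_trans (hC0 T (by linarith) n) ?_
    gcongr
    exact le_max_left _ _
  set E : ℕ → ℝ := fun m => ∑ q ∈ m.divisors.erase 1,
    Real.sqrt q / ((q.totient : ℝ) * ((m / q).totient : ℝ)) *
        ∑ d ∈ (m / q).divisors, (d : ℝ) *
          primSum q (fun ψ => ‖VV j T (α T) (q * (m / q)) d ψ‖) with hE
  have hE0 : ∀ m, 0 ≤ E m := by
    intro m
    simp only [hE]
    apply Finset.sum_nonneg
    intro q _
    apply mul_nonneg (by positivity)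
    apply Finset.sum_nonneg
    intro d _
    apply mul_nonneg (by positivity)
    exact primSum_nonneg _ _ (fun _ => norm_nonneg _)
  have hterm : ∀ m ∈ Finset.Icc 1 M,
      ‖((bet th c1 c2 T m / m : ℝ) : ℂ) *
      (∑' n : ℕ, ((α T n * Real.log ((n : ℝ) / m) ^ j * GG T ((n : ℝ) / m) : ℝ) : ℂ) *
        ee (-((n : ℝ) / m))) - (((bet th c1 c2 T m / (m * (Nat.totient m : ℝ))) *
          ∑' n : ℕ, α T n * ramC m n * Real.log ((n : ℝ) / m) ^ j *
          GG T ((n : ℝ) / m) : ℝ) : ℂ)‖ ≤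
      if Squarefree m then B * (1 / (m : ℝ) * E m) + B * (2 * C / T * K) else 0 := by
    intro m hm
    obtain ⟨hm1, hm2⟩ := hMm m hm
    have hm' : (1 : ℝ) ≤ m := by exact_mod_cast hm1
    have hm0 : (0 : ℝ) < m := by linarith
    split_ifs with hsq
    · have h3 := one_mod T C hT hC' m hm1 hm2 hsq j (α T) ha hW.2
      have hφ : (m.totient : ℂ) ≠ 0 := by
        have := Nat.totient_pos.2 hm1
        exact_mod_cast this.ne'
      have hmc : (m : ℂ) ≠ 0 := by exact_mod_cast (by omega : m ≠ 0)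
      have h4 : ((bet th c1 c2 T m / m : ℝ) : ℂ) *
          (∑' n : ℕ, ((α T n * Real.log ((n : ℝ) / m) ^ j * GG T ((n : ℝ) / m) : ℝ) : ℂ) *
            ee (-((n : ℝ) / m))) - (((bet th c1 c2 T m / (m * (Nat.totient m : ℝ))) *
              ∑' n : ℕ, α T n * ramC m n * Real.log ((n : ℝ) / m) ^ j *
              GG T ((n : ℝ) / m) : ℝ) : ℂ) = ((bet th c1 c2 T m / m : ℝ) : ℂ) *
          ((∑' n : ℕ, ((α T n * Real.log ((n : ℝ) / m) ^ j * GG T ((n : ℝ) / m) : ℝ) : ℂ) *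
            ee (-((n : ℝ) / m))) - ((∑' n : ℕ, α T n * ramC m n * Real.log ((n : ℝ) / m) ^ j *
              GG T ((n : ℝ) / m) : ℝ) : ℂ) / (m.totient : ℂ)) := by
        rw [mul_sub]
        congr 1
        rw [Complex.ofReal_mul, Complex.ofReal_div, Complex.ofReal_div, Complex.ofReal_mul,
          Complex.ofReal_natCast, Complex.ofReal_natCast]
        field_simp
      rw [h4, norm_mul, Complex.norm_real, Real.norm_eq_abs, abs_div, abs_of_pos hm0]
      have h5 : |bet th c1 c2 T m| ≤ B := betf_le th c1 c2 T hth hT1 m hm1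
      calc |bet th c1 c2 T m| / m * ‖_‖ ≤ B / m * (E m + 2 * C / T * K) := by
            gcongr
        _ = B * (1 / (m : ℝ) * E m) + B * (2 * C / T * K) / m := by ring
        _ ≤ B * (1 / (m : ℝ) * E m) + B * (2 * C / T * K) := by
            have h6 : 0 ≤ B * (2 * C / T * K) := by positivity
            have := div_le_self h6 hm'
            linarith
    · have h3 : bet th c1 c2 T m = 0 := betf_zero th c1 c2 T m hsq
      rw [h3]
      simp
  have hSP : Ssum th c1 c2 T j (α T) - (Psum th c1 c2 T j (α T) : ℂ) =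
      ∑ m ∈ Finset.Icc 1 M, (((bet th c1 c2 T m / m : ℝ) : ℂ) *
      (∑' n : ℕ, ((α T n * Real.log ((n : ℝ) / m) ^ j * GG T ((n : ℝ) / m) : ℝ) : ℂ) *
        ee (-((n : ℝ) / m))) - (((bet th c1 c2 T m / (m * (Nat.totient m : ℝ))) *
          ∑' n : ℕ, α T n * ramC m n * Real.log ((n : ℝ) / m) ^ j *
          GG T ((n : ℝ) / m) : ℝ) : ℂ)) := by
    unfold Ssum Psum
    rw [Complex.ofReal_sum, ← Finset.sum_sub_distrib]
  rw [hSP]
  refine le_trans (norm_sum_le _ _) (le_trans (Finset.sum_le_sum hterm) ?_)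
  rw [← Finset.sum_filter, Finset.sum_add_distrib, ← Finset.mul_sum, Finset.sum_const,
    nsmul_eq_mul]
  have hre := rearr M (fun s q => ((q * s : ℕ) : ℝ) ≤ T ^ th)
    (fun q s h => le_trans (by exact_mod_cast h) hMT)
    (fun q s d => primSum q (fun ψ => ‖VV j T (α T) (q * s) d ψ‖))
    (fun q s d => primSum_nonneg _ _ (fun _ => norm_nonneg _))
  have hEE : ∑ m ∈ (Finset.Icc 1 M).filter Squarefree, 1 / (m : ℝ) * E m ≤
      EE th j T 1 M (α T) := by
    refine le_trans hre (le_of_eq ?_)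
    unfold EE QQ
    rfl
  have hcard : (((Finset.Icc 1 M).filter Squarefree).card : ℝ) ≤ T := by
    have h3 : ((Finset.Icc 1 M).filter Squarefree).card ≤ M := by
      refine le_trans (Finset.card_filter_le _ _) ?_
      simp
    have h4 : (((Finset.Icc 1 M).filter Squarefree).card : ℝ) ≤ M := by exact_mod_cast h3
    have h5 : T ^ th ≤ T := by
      calc T ^ th ≤ T ^ (1 : ℝ) := Real.rpow_le_rpow_of_exponent_le hT1.le (by linarith)
        _ = T := Real.rpow_one T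
    linarith
  have hEE0 : 0 ≤ EE th j T 1 M (α T) := by
    refine le_trans ?_ hEE
    apply Finset.sum_nonneg
    intro m _
    have := hE0 m
    positivity
  calc B * ∑ m ∈ (Finset.Icc 1 M).filter Squarefree, 1 / (m : ℝ) * E m +
        (((Finset.Icc 1 M).filter Squarefree).card : ℝ) * (B * (2 * C / T * K)) ≤
        B * EE th j T 1 M (α T) + T * (B * (2 * C / T * K)) := by
        gcongr
    _ = B * EE th j T 1 M (α T) + B * (2 * C * K) := by
        field_simp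
    _ ≤ B * (1 + 2 * C * K) * (1 + EE th j T 1 M (α T)) := by
        have h3 : 0 ≤ B * (2 * C * K) * EE th j T 1 M (α T) := by positivity
        nlinarith

end Pool.Agent.Lib.MP_6bc78b_nt.MS.P2.H67
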